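import Pool.Agent.Helper30.TQ.St

/-!
# Project TQ, module INJ: the powers `1`, `a`, `a ^ 2` of the real root are independent
-/

set_option autoImplicit false

namespace Pool.Agent.Helper56.TQ

open Pool.Agent.Helper30.TQ

/-- Descent by the factor `2`. -/
private theorem desc (c : ℤ) : ∀ (n : ℕ) (q r : ℤ), q.natAbs + r.natAbs ≤ n →
    q ^ 3 + 4 * c * q * r ^ 2 + 4 * r ^ 3 = 0 → q = 0 ∧ r = 0 := by
  intro n
  induction n using Nat.strong_induction_on with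
  | _ n ih =>
    intro q r hn h
    have hq : (2 : ℤ) ∣ q := by
      have h1 : (2 : ℤ) ∣ q ^ 3 := ⟨-(2 * c * q * r ^ 2 + 2 * r ^ 3), by linarith⟩
      exact Int.prime_two.dvd_of_dvd_pow h1
    obtain ⟨q1, rfl⟩ := hq
    have hr : (2 : ℤ) ∣ r := by
      have h1 : (2 : ℤ) ∣ r ^ 3 := ⟨-(q1 ^ 3 + c * q1 * r ^ 2), by linarith⟩
      exact Int.prime_two.dvd_of_dvd_pow h1
    obtain ⟨r1, rfl⟩ := hr
    have h2 : q1 ^ 3 + 4 * c * q1 * r1 ^ 2 + 4 * r1 ^ 3 = 0 := by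
      have : 8 * (q1 ^ 3 + 4 * c * q1 * r1 ^ 2 + 4 * r1 ^ 3) = 0 := by linarith
      linarith
    by_cases h0 : q1 = 0 ∧ r1 = 0
    · rw [h0.1, h0.2]
      simp
    · have hlt : q1.natAbs + r1.natAbs < n := by
        have h3 : 0 < q1.natAbs + r1.natAbs := by
          by_contra hc
          apply h0
          constructor <;> omega
        have h4 : (2 * q1).natAbs = 2 * q1.natAbs := by rw [Int.natAbs_mul]; rfl
        have h5 : (2 * r1).natAbs = 2 * r1.natAbs := by rw [Int.natAbs_mul]; rfl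
        omega
      exact absurd (ih _ hlt q1 r1 le_rfl h2) h0

private theorem root (c q r : ℤ) (h : q ^ 3 + 4 * c * q * r ^ 2 + 4 * r ^ 3 = 0) :
    q = 0 ∧ r = 0 := desc c _ q r le_rfl h

/-- `A + B a = 0` implies `A = B = 0`. -/
private theorem irr (c : ℤ) (a : ℝ) (ha : a ^ 3 + 4 * (c : ℝ) * a + 4 = 0) (A B : ℤ)
    (h : (A : ℝ) + (B : ℝ) * a = 0) : A = 0 ∧ B = 0 := by
  have h1 : ((-(A : ℝ)) ^ 3 + 4 * (c : ℝ) * (-(A : ℝ)) * (B : ℝ) ^ 2 + 4 * (B : ℝ) ^ 3) = 0 := by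
    have h2 : -(A : ℝ) = (B : ℝ) * a := by linarith
    rw [h2]
    linear_combination (B : ℝ) ^ 3 * ha
  have h3 : (-A) ^ 3 + 4 * c * (-A) * B ^ 2 + 4 * B ^ 3 = 0 := by exact_mod_cast h1
  obtain ⟨h4, h5⟩ := root c (-A) B h3
  exact ⟨by linarith, h5⟩

/-- **Module INJ.** -/
theorem hINJ : StINJ := by
  intro c _ a hR
  obtain ⟨ha, -⟩ := hR
  refine ⟨?_, fun q r h => root c q r h⟩
  rintro ⟨p, q, r⟩ h
  simp only [ev] at h
  have h1 : ((p * q + 4 * r ^ 2 : ℤ) : ℝ) + ((q ^ 2 + 4 * c * r ^ 2 - p * r : ℤ) : ℝ) * a = 0 := by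
    push_cast
    linear_combination ((q : ℝ) - (r : ℝ) * a) * h + (r : ℝ) ^ 2 * ha
  obtain ⟨h2, h3⟩ := irr c a ha _ _ h1
  have h4 : q ^ 3 + 4 * c * q * r ^ 2 + 4 * r ^ 3 = 0 := by
    linear_combination q * h3 + r * h2
  obtain ⟨h5, h6⟩ := root c q r h4
  subst h5 h6
  have h7 : (p : ℝ) = 0 := by
    simpa using h
  have h8 : p = 0 := by exact_mod_cast h7
  rw [h8]

end Pool.Agent.Helper56.TQ
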